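import Mathlib

/-!
# A four-dimensional Hopf algebra with infinitely many two-sided group-like projections

Let `k` be an infinite field of characteristic two and `A` the restricted enveloping algebra of the
two-dimensional restricted Lie algebra with `[t, x] = x`, `t^[2] = t`, `x^[2] = 0`: the Hopf algebra
generated by primitive elements `t, x` with `t² = t`, `x² = 0`, `tx + xt = x`.  For every scalar `c`
the element `s = t + cx` satisfies `s² = s`, and `1 + s` is a two-sided group-like projection.
-/

set_option autoImplicit false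

namespace Pool.Agent.Results.MP_2a0e18_al.InfinitelyMany

open scoped TensorProduct

universe u

section Defs

variable (k : Type u) [Field k] {A : Type u} [Ring A] [HopfAlgebra k A]

/-- `P` is a right group-like projection: a nonzero idempotent with
`Δ(P)(1 ⊗ P) = P ⊗ P = (1 ⊗ P)Δ(P)`. -/
def IsRightGroupLikeProjection (P : A) : Prop :=
  P ≠ 0 ∧ P * P = P ∧
    (Coalgebra.comul (R := k) P : A ⊗[k] A) * ((1 : A) ⊗ₜ[k] P) = P ⊗ₜ[k] P ∧
    ((1 : A) ⊗ₜ[k] P) * (Coalgebra.comul (R := k) P : A ⊗[k] A) = P ⊗ₜ[k] P

/-- `P` is a left group-like projection: a nonzero idempotent with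
`Δ(P)(P ⊗ 1) = P ⊗ P = (P ⊗ 1)Δ(P)`. -/
def IsLeftGroupLikeProjection (P : A) : Prop :=
  P ≠ 0 ∧ P * P = P ∧
    (Coalgebra.comul (R := k) P : A ⊗[k] A) * (P ⊗ₜ[k] (1 : A)) = P ⊗ₜ[k] P ∧
    (P ⊗ₜ[k] (1 : A)) * (Coalgebra.comul (R := k) P : A ⊗[k] A) = P ⊗ₜ[k] P

/-- `P` is a two-sided group-like projection. -/
def IsTwoSidedGroupLikeProjection (P : A) : Prop :=
  IsLeftGroupLikeProjection k P ∧ IsRightGroupLikeProjection k P

end Defs

section Construction

variable (k : Type u) [Field k]

/-- the free generators -/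
def fr (b : Bool) : FreeAlgebra k Bool := FreeAlgebra.ι k b

/-- the relations `t² = t`, `x² = 0`, `tx + xt = x` (here `t` is `true`, `x` is `false`) -/
inductive Rel : FreeAlgebra k Bool → FreeAlgebra k Bool → Prop
  | tt : Rel (fr k true * fr k true) (fr k true)
  | xx : Rel (fr k false * fr k false) 0
  | tx : Rel (fr k true * fr k false + fr k false * fr k true) (fr k false)

/-- the algebra -/
abbrev H : Type u := RingQuot (Rel k)

/-- the quotient map -/
noncomputable def mk : FreeAlgebra k Bool →ₐ[k] H k := RingQuot.mkAlgHom k (Rel k)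

/-- the generators -/
noncomputable def g (b : Bool) : H k := mk k (fr k b)

theorem g_tt : g k true * g k true = g k true := by
  unfold g
  rw [← map_mul]
  exact RingQuot.mkAlgHom_rel k Rel.tt

theorem g_xx : g k false * g k false = 0 := by
  unfold g
  rw [← map_mul, ← map_zero (mk k)]
  exact RingQuot.mkAlgHom_rel k Rel.xx

theorem g_tx : g k true * g k false + g k false * g k true = g k false := by
  unfold g
  rw [← map_mul, ← map_mul, ← map_add]
  exact RingQuot.mkAlgHom_rel k Rel.tx

/-- homomorphisms out of `H` -/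
noncomputable def lft {B : Type u} [Ring B] [Algebra k B] (v : Bool → B)
    (h1 : v true * v true = v true) (h2 : v false * v false = 0)
    (h3 : v true * v false + v false * v true = v false) : H k →ₐ[k] B :=
  RingQuot.liftAlgHom k ⟨FreeAlgebra.lift k v, by
    rintro _ _ (_ | _ | _)
    · simp only [fr, map_mul, FreeAlgebra.lift_ι_apply, h1]
    · simp only [fr, map_mul, FreeAlgebra.lift_ι_apply, h2, map_zero]
    · simp only [fr, map_mul, map_add, FreeAlgebra.lift_ι_apply, h3]⟩

theorem lft_g {B : Type u} [Ring B] [Algebra k B] (v : Bool → B)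
    (h1 : v true * v true = v true) (h2 : v false * v false = 0)
    (h3 : v true * v false + v false * v true = v false) (b : Bool) :
    lft k v h1 h2 h3 (g k b) = v b := by
  unfold lft g mk fr
  rw [RingQuot.liftAlgHom_mkAlgHom_apply, FreeAlgebra.lift_ι_apply]

theorem hom_ext {B : Type u} [Semiring B] [Algebra k B] {f₁ f₂ : H k →ₐ[k] B}
    (h : ∀ b, f₁ (g k b) = f₂ (g k b)) : f₁ = f₂ := by
  apply RingQuot.ringQuot_ext'
  apply FreeAlgebra.hom_ext
  funext b
  exact h b

variable [CharP k 2]

theorem two_zero (B : Type u) [Semiring B] [Algebra k B] (a : B) : a + a = 0 := by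
  have : ((2 : k)) • a = a + a := two_smul k a
  rw [← this, show (2 : k) = 0 from CharTwo.two_eq_zero, zero_smul]

/-- the value of the comultiplication on the generators -/
noncomputable def cv (b : Bool) : H k ⊗[k] H k := g k b ⊗ₜ 1 + 1 ⊗ₜ g k b

/-- the comultiplication -/
noncomputable def Δ : H k →ₐ[k] H k ⊗[k] H k :=
  lft k (cv k)
    (by
      simp only [cv, add_mul, mul_add, Algebra.TensorProduct.tmul_mul_tmul, mul_one, one_mul, g_tt]
      have := two_zero k (H k ⊗[k] H k) (g k true ⊗ₜ[k] g k true)
      rw [show g k true ⊗ₜ[k] (1 : H k) + g k true ⊗ₜ[k] g k true +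
        (g k true ⊗ₜ[k] g k true + 1 ⊗ₜ[k] g k true) = g k true ⊗ₜ[k] (1 : H k) +
        (g k true ⊗ₜ[k] g k true + g k true ⊗ₜ[k] g k true) + 1 ⊗ₜ[k] g k true by abel, this,
        add_zero])
    (by
      simp only [cv, add_mul, mul_add, Algebra.TensorProduct.tmul_mul_tmul, mul_one, one_mul, g_xx,
        TensorProduct.zero_tmul, TensorProduct.tmul_zero, zero_add, add_zero]
      exact two_zero k (H k ⊗[k] H k) _)
    (by
      have h := g_tx k
      have h1 := two_zero k (H k ⊗[k] H k) (g k true ⊗ₜ[k] g k false)
      have h2 := two_zero k (H k ⊗[k] H k) (g k false ⊗ₜ[k] g k true)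
      simp only [cv, add_mul, mul_add, Algebra.TensorProduct.tmul_mul_tmul, mul_one, one_mul]
      conv_rhs => rw [← h]
      rw [TensorProduct.add_tmul, TensorProduct.tmul_add]
      rw [show (g k true * g k false) ⊗ₜ[k] (1 : H k) + g k false ⊗ₜ[k] g k true +
        (g k true ⊗ₜ[k] g k false + 1 ⊗ₜ[k] (g k true * g k false)) +
        ((g k false * g k true) ⊗ₜ[k] (1 : H k) + g k true ⊗ₜ[k] g k false +
        (g k false ⊗ₜ[k] g k true + 1 ⊗ₜ[k] (g k false * g k true))) =
        (g k true * g k false) ⊗ₜ[k] (1 : H k) + (g k false * g k true) ⊗ₜ[k] (1 : H k) +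
        (1 ⊗ₜ[k] (g k true * g k false) + 1 ⊗ₜ[k] (g k false * g k true)) +
        (g k false ⊗ₜ[k] g k true + g k false ⊗ₜ[k] g k true) +
        (g k true ⊗ₜ[k] g k false + g k true ⊗ₜ[k] g k false) by abel, h1, h2, add_zero, add_zero])

theorem Δ_g (b : Bool) : Δ k (g k b) = g k b ⊗ₜ 1 + 1 ⊗ₜ g k b := by
  unfold Δ
  rw [lft_g, cv]

omit [CharP k 2] in
/-- the counit -/
noncomputable def ε : H k →ₐ[k] k :=
  lft k (fun _ => 0) (by simp) (by simp) (by simp)

omit [CharP k 2] in
theorem ε_g (b : Bool) : ε k (g k b) = 0 := by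
  unfold ε
  rw [lft_g]

noncomputable instance : Bialgebra k (H k) :=
  Bialgebra.ofAlgHom (Δ k) (ε k)
    (by
      apply hom_ext
      intro b
      simp [Δ_g, TensorProduct.add_tmul, TensorProduct.tmul_add, Algebra.TensorProduct.one_def,
        add_assoc])
    (by
      apply hom_ext
      intro b
      simp [Δ_g, ε_g])
    (by
      apply hom_ext
      intro b
      simp [Δ_g, ε_g])

/-- the antipode as a homomorphism to the opposite algebra -/
noncomputable def Sop : H k →ₐ[k] (H k)ᵐᵒᵖ :=
  lft k (fun b => MulOpposite.op (g k b))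
    (by rw [← MulOpposite.op_mul, g_tt])
    (by rw [← MulOpposite.op_mul, g_xx, MulOpposite.op_zero])
    (by rw [← MulOpposite.op_mul, ← MulOpposite.op_mul, ← MulOpposite.op_add, add_comm, g_tx])

/-- the antipode -/
noncomputable def S : H k →ₗ[k] H k :=
  (MulOpposite.opLinearEquiv k).symm.toLinearMap ∘ₗ (Sop k).toLinearMap

omit [CharP k 2] in
theorem S_g (b : Bool) : S k (g k b) = g k b := by
  simp [S, Sop, lft_g]

omit [CharP k 2] in
theorem S_one : S k 1 = 1 := by
  simp [S]

omit [CharP k 2] in
theorem S_mul (a b : H k) : S k (a * b) = S k b * S k a := by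
  simp [S]

theorem comul_def (a : H k) : Coalgebra.comul (R := k) a = Δ k a := rfl

theorem counit_def (a : H k) : Coalgebra.counit (R := k) a = ε k a := rfl

omit [CharP k 2] in
theorem induct {Q : H k → Prop} (h1 : Q 1) (hg : ∀ b, Q (g k b)) (hm : ∀ a b, Q a → Q b → Q (a * b))
    (ha : ∀ a b, Q a → Q b → Q (a + b)) (hs : ∀ (c : k) a, Q a → Q (c • a)) (a : H k) : Q a := by
  obtain ⟨f, rfl⟩ := RingQuot.mkAlgHom_surjective k (Rel k) a
  induction f using FreeAlgebra.induction with
  | grade0 r =>
    rw [AlgHom.commutes, Algebra.algebraMap_eq_smul_one]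
    exact hs _ _ h1
  | grade1 b => exact hg b
  | mul a b iha ihb => rw [map_mul]; exact hm _ _ iha ihb
  | add a b iha ihb => rw [map_add]; exact ha _ _ iha ihb

/-- `m (S ⊗ id)` -/
noncomputable def φ : H k ⊗[k] H k →ₗ[k] H k := LinearMap.mul' k (H k) ∘ₗ (S k).rTensor (H k)

/-- `m (id ⊗ S)` -/
noncomputable def ψ : H k ⊗[k] H k →ₗ[k] H k := LinearMap.mul' k (H k) ∘ₗ (S k).lTensor (H k)

omit [CharP k 2] in
theorem φ_tmul (a b : H k) : φ k (a ⊗ₜ b) = S k a * b := by simp [φ]

omit [CharP k 2] in
theorem ψ_tmul (a b : H k) : ψ k (a ⊗ₜ b) = a * S k b := by simp [ψ]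

omit [CharP k 2] in
theorem φ_mul (w : H k ⊗[k] H k) (a b : H k) : φ k (w * (a ⊗ₜ b)) = S k a * φ k w * b := by
  induction w using TensorProduct.induction_on with
  | zero => simp
  | tmul x y =>
    rw [Algebra.TensorProduct.tmul_mul_tmul, φ_tmul, φ_tmul, S_mul]
    simp only [mul_assoc]
  | add x y hx hy => rw [add_mul, map_add, hx, hy, map_add, mul_add, add_mul]

omit [CharP k 2] in
theorem ψ_mul (w : H k ⊗[k] H k) (a b : H k) : ψ k ((a ⊗ₜ b) * w) = a * ψ k w * S k b := by
  induction w using TensorProduct.induction_on with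
  | zero => simp
  | tmul x y =>
    rw [Algebra.TensorProduct.tmul_mul_tmul, ψ_tmul, ψ_tmul, S_mul]
    simp only [mul_assoc]
  | add x y hx hy => rw [mul_add, map_add, hx, hy, map_add, mul_add, add_mul]

theorem φ_Δ (a : H k) : φ k (Δ k a) = algebraMap k (H k) (ε k a) := by
  induction a using induct with
  | h1 => rw [map_one, Algebra.TensorProduct.one_def, φ_tmul, S_one, map_one, map_one, one_mul]
  | hg b =>
    rw [Δ_g, map_add, φ_tmul, φ_tmul, S_g, S_one, ε_g, map_zero, mul_one, one_mul]
    exact two_zero k _ _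
  | hm a b ha hb =>
    rw [map_mul (Δ k), map_mul (ε k), map_mul (algebraMap k (H k))]
    have h1 : ∀ w : H k ⊗[k] H k, φ k (Δ k a * w) = algebraMap k (H k) (ε k a) * φ k w := by
      intro w
      induction w using TensorProduct.induction_on with
      | zero => simp
      | tmul x y =>
        rw [φ_mul, ha, φ_tmul, ← Algebra.commutes, mul_assoc]
      | add x y hx hy => rw [mul_add, map_add, hx, hy, map_add, mul_add]
    rw [h1, hb]
  | ha a b iha ihb => rw [map_add, map_add, iha, ihb, map_add, map_add]
  | hs c a iha => rw [map_smul, map_smul, iha, map_smul, smul_eq_mul, map_mul,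
      Algebra.smul_def]

theorem ψ_Δ (a : H k) : ψ k (Δ k a) = algebraMap k (H k) (ε k a) := by
  induction a using induct with
  | h1 => rw [map_one, Algebra.TensorProduct.one_def, ψ_tmul, S_one, map_one, map_one, one_mul]
  | hg b =>
    rw [Δ_g, map_add, ψ_tmul, ψ_tmul, S_g, S_one, ε_g, map_zero, mul_one, one_mul]
    exact two_zero k _ _
  | hm a b ha hb =>
    rw [map_mul (Δ k), map_mul (ε k), map_mul (algebraMap k (H k))]
    have h1 : ∀ w : H k ⊗[k] H k, ψ k (w * Δ k b) = ψ k w * algebraMap k (H k) (ε k b) := by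
      intro w
      induction w using TensorProduct.induction_on with
      | zero => simp
      | tmul x y =>
        rw [ψ_mul, hb, ψ_tmul, mul_assoc, mul_assoc, Algebra.commutes]
      | add x y hx hy => rw [add_mul, map_add, hx, hy, map_add, add_mul]
    rw [h1, ha]
  | ha a b iha ihb => rw [map_add, map_add, iha, ihb, map_add, map_add]
  | hs c a iha => rw [map_smul, map_smul, iha, map_smul, smul_eq_mul, map_mul,
      Algebra.smul_def]

noncomputable instance : HopfAlgebra k (H k) where
  antipode := S k
  mul_antipode_rTensor_comul := by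
    apply LinearMap.ext
    intro a
    exact φ_Δ k a
  mul_antipode_lTensor_comul := by
    apply LinearMap.ext
    intro a
    exact ψ_Δ k a

omit [CharP k 2] in
theorem span_top : Submodule.span k ({1, g k true, g k false, g k true * g k false} : Set (H k))
    = ⊤ := by
  set V := Submodule.span k ({1, g k true, g k false, g k true * g k false} : Set (H k)) with hV
  have m1 : (1 : H k) ∈ V := Submodule.subset_span (by simp)
  have m2 : g k true ∈ V := Submodule.subset_span (by simp)
  have m3 : g k false ∈ V := Submodule.subset_span (by simp)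
  have m4 : g k true * g k false ∈ V := Submodule.subset_span (by simp)
  have hxt : g k false * g k true = g k false - g k true * g k false := by
    have := g_tx k
    rw [eq_sub_iff_add_eq, add_comm]
    exact this
  have hgV : ∀ (b : Bool) (v : H k), v ∈ V → g k b * v ∈ V := by
    intro b v hv
    induction hv using Submodule.span_induction with
    | zero => rw [mul_zero]; exact V.zero_mem
    | add x y _ _ hx hy => rw [mul_add]; exact V.add_mem hx hy
    | smul c x _ hx => rw [mul_smul_comm]; exact V.smul_mem c hx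
    | mem x hx =>
      rcases hx with rfl | rfl | rfl | rfl
      · rw [mul_one]; cases b
        · exact m3
        · exact m2
      · cases b
        · rw [hxt]; exact V.sub_mem m3 m4
        · rw [g_tt]; exact m2
      · cases b
        · rw [g_xx]; exact V.zero_mem
        · exact m4
      · cases b
        · rw [← mul_assoc, hxt, sub_mul, g_xx, mul_assoc, g_xx, mul_zero, sub_zero]
          exact V.zero_mem
        · rw [← mul_assoc, g_tt]; exact m4
  have key : ∀ a : H k, ∀ v ∈ V, a * v ∈ V := by
    intro a
    induction a using induct with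
    | h1 => intro v hv; rwa [one_mul]
    | hg b => exact hgV b
    | hm a b iha ihb => intro v hv; rw [mul_assoc]; exact iha _ (ihb _ hv)
    | ha a b iha ihb => intro v hv; rw [add_mul]; exact V.add_mem (iha _ hv) (ihb _ hv)
    | hs c a iha => intro v hv; rw [smul_mul_assoc]; exact V.smul_mem c (iha _ hv)
  rw [eq_top_iff]
  intro a _
  have := key a 1 m1
  rwa [mul_one] at this

omit [CharP k 2] in
theorem finDim : FiniteDimensional k (H k) := by
  classical
  refine ⟨⟨{1, g k true, g k false, g k true * g k false}, ?_⟩⟩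
  rw [← span_top k]
  congr 1
  simp

/-- a two-dimensional representation, to see that `x ≠ 0` -/
noncomputable def ρ : H k →ₐ[k] Matrix (Fin 2) (Fin 2) k :=
  lft k (fun b => if b then !![1, 0; 0, 0] else !![0, 1; 0, 0])
    (by ext i j; fin_cases i <;> fin_cases j <;> simp)
    (by ext i j; fin_cases i <;> fin_cases j <;> simp)
    (by ext i j; fin_cases i <;> fin_cases j <;> simp)

omit [CharP k 2] in
theorem x_ne : g k false ≠ 0 := by
  intro h
  have h1 : ρ k (g k false) = 0 := by rw [h, map_zero]
  unfold ρ at h1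
  rw [lft_g] at h1
  have h2 := congrFun (congrFun h1 0) 1
  simp at h2

/-- the projections -/
noncomputable def P (c : k) : H k := 1 + (g k true + c • g k false)

omit [CharP k 2] in
theorem P_inj : Function.Injective (P k) := by
  intro c d h
  unfold P at h
  have h1 : c • g k false = d • g k false := add_left_cancel (add_left_cancel h)
  by_contra hcd
  have h2 : (c - d) • g k false = 0 := by
    have h4 := sub_smul c d (g k false)
    rw [h4, h1, sub_self]
  rcases smul_eq_zero.mp h2 with h3 | h3
  · exact hcd (sub_eq_zero.mp h3)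
  · exact x_ne k h3

omit [CharP k 2] in
theorem s_idem (c : k) : (g k true + c • g k false) * (g k true + c • g k false) =
    g k true + c • g k false := by
  have h := g_tx k
  have h1 : (g k true + c • g k false) * (g k true + c • g k false) =
      g k true * g k true + c • (g k true * g k false + g k false * g k true) +
        (c * c) • (g k false * g k false) := by
    simp only [add_mul, mul_add, smul_mul_assoc, mul_smul_comm, smul_add, smul_smul]
    abel
  rw [h1, h, g_tt, g_xx, smul_zero, add_zero]

theorem Δ_s (c : k) : Δ k (g k true + c • g k false) =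
    (g k true + c • g k false) ⊗ₜ 1 + 1 ⊗ₜ (g k true + c • g k false) := by
  rw [map_add, map_smul, Δ_g, Δ_g, TensorProduct.add_tmul, TensorProduct.tmul_add,
    TensorProduct.tmul_smul, ← TensorProduct.smul_tmul', smul_add]
  abel

/-- the general computation -/
theorem glp {s : H k} (hs : s * s = s) (hΔ : Δ k s = s ⊗ₜ 1 + 1 ⊗ₜ s) (h0 : (1 : H k) + s ≠ 0) :
    IsTwoSidedGroupLikeProjection k (1 + s) := by
  have hP : (1 + s) * (1 + s) = 1 + s := by
    have h2 := two_zero k _ s
    have h3 : (1 + s) * (1 + s) = 1 + s + (s + s * s) := by noncomm_ring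
    rw [h3, hs, h2, add_zero]
  have hsP : s * (1 + s) = 0 := by
    rw [mul_add, hs, mul_one]
    exact two_zero k _ s
  have hPs : (1 + s) * s = 0 := by
    rw [add_mul, hs, one_mul]
    exact two_zero k _ s
  have hΔP : Coalgebra.comul (R := k) (1 + s) = (1 : H k) ⊗ₜ[k] (1 : H k) + s ⊗ₜ 1 + 1 ⊗ₜ s := by
    rw [comul_def, map_add, map_one, hΔ, Algebra.TensorProduct.one_def, add_assoc]
  refine ⟨⟨h0, hP, ?_, ?_⟩, ⟨h0, hP, ?_, ?_⟩⟩
  · rw [hΔP, add_mul, add_mul]
    simp only [Algebra.TensorProduct.tmul_mul_tmul, one_mul, mul_one]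
    rw [hsP, TensorProduct.zero_tmul, add_zero, ← TensorProduct.tmul_add]
  · rw [hΔP, mul_add, mul_add]
    simp only [Algebra.TensorProduct.tmul_mul_tmul, one_mul, mul_one]
    rw [hPs, TensorProduct.zero_tmul, add_zero, ← TensorProduct.tmul_add]
  · rw [hΔP, add_mul, add_mul]
    simp only [Algebra.TensorProduct.tmul_mul_tmul, one_mul, mul_one]
    rw [hsP, TensorProduct.tmul_zero, add_zero, ← TensorProduct.add_tmul]
  · rw [hΔP, mul_add, mul_add]
    simp only [Algebra.TensorProduct.tmul_mul_tmul, one_mul, mul_one]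
    rw [hPs, TensorProduct.tmul_zero, add_zero, ← TensorProduct.add_tmul]

omit [CharP k 2] in
theorem P_ne (c : k) : P k c ≠ 0 := by
  intro h
  have h1 : ε k (P k c) = 0 := by rw [h, map_zero]
  unfold P at h1
  rw [map_add, map_add, map_smul, ε_g, ε_g, map_one, smul_zero, add_zero, add_zero] at h1
  exact one_ne_zero h1

end Construction

/-- **Positive answer to Q1.**  Over every infinite field `k` of characteristic two there is a
finite-dimensional Hopf algebra which has infinitely many two-sided group-like projections. -/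
theorem result (k : Type u) [Field k] [CharP k 2] [Infinite k] :
    ∃ (A : Type u) (_ : Ring A) (_ : HopfAlgebra k A), FiniteDimensional k A ∧
      {P : A | IsTwoSidedGroupLikeProjection k P}.Infinite := by
  refine ⟨H k, inferInstance, inferInstance, finDim k, ?_⟩
  apply Set.infinite_of_injective_forall_mem (P_inj k)
  intro c
  exact glp k (s_idem k c) (Δ_s k c) (P_ne k c)

end Pool.Agent.Results.MP_2a0e18_al.InfinitelyMany
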